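import Mathlib

/-!
# Slices of sets in `ℝ^(n+1)`
-/

set_option autoImplicit false

noncomputable section

open MeasureTheory Set Matrix
open scoped ENNReal Pointwise

namespace Pool.Agent.Helper80.HT

variable {n : ℕ}

theorem symm_eq (t : ℝ) (y : Fin n → ℝ) :
    (MeasurableEquiv.piFinSuccAbove (fun _ : Fin (n + 1) => ℝ) 0).symm (t, y) =
      (Fin.cons t y : Fin (n + 1) → ℝ) := Fin.insertNth_zero' t y

/-- slices with first coordinate fixed -/
theorem vol_slice {S : Set (Fin (n + 1) → ℝ)} (hS : MeasurableSet S) :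
    volume S = ∫⁻ t : ℝ, volume {y : Fin n → ℝ | (Fin.cons t y : Fin (n + 1) → ℝ) ∈ S} := by
  have h1 := (volume_preserving_piFinSuccAbove (fun _ : Fin (n + 1) => ℝ) 0).symm
  have h2 := h1.measure_preimage hS.nullMeasurableSet
  rw [← h2, Measure.volume_eq_prod, Measure.prod_apply]
  · apply lintegral_congr
    intro t
    congr 1
    ext y
    show (MeasurableEquiv.piFinSuccAbove (fun _ : Fin (n + 1) => ℝ) 0).symm (t, y) ∈ S ↔ _
    rw [symm_eq]
    rfl
  · exact h1.measurable hS

/-- fibres with the last coordinates fixed -/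
theorem vol_fib {S : Set (Fin (n + 1) → ℝ)} (hS : MeasurableSet S) :
    volume S = ∫⁻ y : Fin n → ℝ, volume {t : ℝ | (Fin.cons t y : Fin (n + 1) → ℝ) ∈ S} := by
  have h1 := (volume_preserving_piFinSuccAbove (fun _ : Fin (n + 1) => ℝ) 0).symm
  have h2 := h1.measure_preimage hS.nullMeasurableSet
  rw [← h2, Measure.volume_eq_prod, Measure.prod_apply_symm]
  · apply lintegral_congr
    intro y
    congr 1
    ext t
    show (MeasurableEquiv.piFinSuccAbove (fun _ : Fin (n + 1) => ℝ) 0).symm (t, y) ∈ S ↔ _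
    rw [symm_eq]
    rfl
  · exact h1.measurable hS

theorem cont_cons {X : Type*} [TopologicalSpace X] {f : X → ℝ} {g : X → Fin n → ℝ}
    (hf : Continuous f) (hg : Continuous g) :
    Continuous fun x => (Fin.cons (f x) (g x) : Fin (n + 1) → ℝ) := by
  apply continuous_pi
  intro i
  refine Fin.cases ?_ ?_ i
  · simpa using hf
  · intro j
    simp only [Fin.cons_succ]
    exact (continuous_apply j).comp hg

theorem cons_dot (t s : ℝ) (x y : Fin n → ℝ) :
    (Fin.cons t x : Fin (n + 1) → ℝ) ⬝ᵥ (Fin.cons s y : Fin (n + 1) → ℝ) = t * s + x ⬝ᵥ y := by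
  simp only [dotProduct, Fin.sum_univ_succ, Fin.cons_zero, Fin.cons_succ]

theorem cons_tail (x : Fin (n + 1) → ℝ) : (Fin.cons (x 0) (Fin.tail x) : Fin (n + 1) → ℝ) = x :=
  Fin.cons_self_tail x

end Pool.Agent.Helper80.HT

end
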