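import Pool.Agent.Helper80.HT.Sym
import Pool.Agent.Helper80.HT.Slice
import Pool.Graph.R_seed8.H629R2.HT.Main

/-!
# The symmetric body `conv (K × {1} ∪ -K × {-1})` in `ℝ⁴`
-/

set_option autoImplicit false

noncomputable section

open MeasureTheory Set Matrix
open scoped ENNReal Pointwise

namespace Pool.Agent.Helper80.HT

open Pool.Agent.H629R2.HT

variable {n : ℕ}

/-- `conv (K × {1} ∪ -K × {-1})`, the first coordinate is the height -/
def EE (K : Set (Fin n → ℝ)) : Set (Fin (n + 1) → ℝ) :=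
  {x | ∃ t : ℝ, 0 ≤ t ∧ t ≤ 1 ∧ ∃ y ∈ K, ∃ z ∈ K,
    x = (Fin.cons (2 * t - 1) (t • y - (1 - t) • z) : Fin (n + 1) → ℝ)}

theorem EE_compact {K : Set (Fin n → ℝ)} (hK : IsCompact K) : IsCompact (EE K) := by
  have h1 : EE K = (fun q : ℝ × ((Fin n → ℝ) × (Fin n → ℝ)) =>
      (Fin.cons (2 * q.1 - 1) (q.1 • q.2.1 - (1 - q.1) • q.2.2) : Fin (n + 1) → ℝ)) ''
      (Icc 0 1 ×ˢ (K ×ˢ K)) := by
    ext x
    constructor
    · rintro ⟨t, h0, h1, y, hy, z, hz, rfl⟩
      exact ⟨(t, (y, z)), ⟨⟨h0, h1⟩, hy, hz⟩, rfl⟩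
    · rintro ⟨⟨t, y, z⟩, ⟨⟨h0, h1⟩, hy, hz⟩, rfl⟩
      exact ⟨t, h0, h1, y, hy, z, hz, rfl⟩
  rw [h1]
  refine (isCompact_Icc.prod (hK.prod hK)).image ?_
  exact cont_cons (by fun_prop) (by fun_prop)

theorem EE_convex {K : Set (Fin n → ℝ)} (hK : Convex ℝ K) : Convex ℝ (EE K) := by
  rintro _ ⟨t, h0, h1, y, hy, z, hz, rfl⟩ _ ⟨t', h0', h1', y', hy', z', hz', rfl⟩ a b ha hb hab
  obtain ⟨Y, hY, hYe⟩ := hK.exists_mem_add_smul_eq hy hy' (mul_nonneg ha h0) (mul_nonneg hb h0')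
  obtain ⟨Z, hZ, hZe⟩ := hK.exists_mem_add_smul_eq hz hz'
    (mul_nonneg ha (by linarith : 0 ≤ 1 - t)) (mul_nonneg hb (by linarith : 0 ≤ 1 - t'))
  refine ⟨a * t + b * t', by positivity, ?_, Y, hY, Z, hZ, ?_⟩
  · nlinarith
  · have e1 : 1 - (a * t + b * t') = a * (1 - t) + b * (1 - t') := by
      have : b = 1 - a := by linarith
      subst this; ring
    rw [e1, hYe, hZe]
    ext i
    refine Fin.cases ?_ ?_ i
    · simp only [Pi.add_apply, Pi.smul_apply, Fin.cons_zero, smul_eq_mul]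
      have : b = 1 - a := by linarith
      subst this; ring
    · intro j
      simp only [Pi.add_apply, Pi.smul_apply, Fin.cons_succ, smul_eq_mul, Pi.sub_apply]
      ring

theorem EE_symm {K : Set (Fin n → ℝ)} : ∀ x ∈ EE K, -x ∈ EE K := by
  rintro _ ⟨t, h0, h1, y, hy, z, hz, rfl⟩
  refine ⟨1 - t, by linarith, by linarith, z, hz, y, hy, ?_⟩
  ext i
  refine Fin.cases ?_ ?_ i
  · simp only [Pi.neg_apply, Fin.cons_zero]; ring
  · intro j
    simp only [Pi.neg_apply, Fin.cons_succ, Pi.sub_apply, Pi.smul_apply, smul_eq_mul]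
    ring

theorem EE_int {K : Set (Fin n → ℝ)} (hK : (interior K).Nonempty) : (interior (EE K)).Nonempty := by
  obtain ⟨k, hk⟩ := hK
  obtain ⟨r, hr, hrK⟩ := Metric.isOpen_iff.1 isOpen_interior k hk
  have hkK : k ∈ K := interior_subset hk
  set U : Set (Fin (n + 1) → ℝ) := {x | |x 0| < 1 / 2} ∩ {x | ‖Fin.tail x - x 0 • k‖ < r / 4} with hU
  have htail : Continuous fun x : Fin (n + 1) → ℝ => (Fin.tail x : Fin n → ℝ) := by
    apply continuous_pi
    intro j
    exact continuous_apply (Fin.succ j)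
  have hUo : IsOpen U := by
    refine IsOpen.inter ?_ ?_
    · exact isOpen_lt (by fun_prop) continuous_const
    · refine isOpen_lt (Continuous.norm ?_) continuous_const
      exact htail.sub (by fun_prop)
  refine ⟨0, mem_interior.2 ⟨U, ?_, hUo, ?_⟩⟩
  · rintro x ⟨hx1, hx2⟩
    have hx1 : |x 0| < 1 / 2 := hx1
    have hx2 : ‖Fin.tail x - x 0 • k‖ < r / 4 := hx2
    have h3 := abs_lt.1 hx1
    set t : ℝ := (1 + x 0) / 2 with ht
    have ht0 : 1 / 4 < t := by rw [ht]; linarith [h3.1]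
    refine ⟨t, by linarith, by rw [ht]; linarith [h3.2], k + t⁻¹ • (Fin.tail x - x 0 • k), ?_, k, hkK, ?_⟩
    · apply interior_subset
      apply hrK
      rw [Metric.mem_ball, dist_eq_norm, add_sub_cancel_left, norm_smul, norm_inv,
        Real.norm_of_nonneg (by linarith), inv_mul_lt_iff₀ (by linarith)]
      nlinarith
    · have ht1 : t ≠ 0 := by linarith
      conv_lhs => rw [← cons_tail x]
      congr 1
      · rw [ht]; ring
      · rw [smul_add, smul_smul, mul_inv_cancel₀ ht1, one_smul]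
        have e : x 0 = 2 * t - 1 := by rw [ht]; ring
        rw [e]
        module
  · refine ⟨?_, ?_⟩
    · show |(0 : Fin (n + 1) → ℝ) 0| < 1 / 2
      simp
    · show ‖(Fin.tail (0 : Fin (n + 1) → ℝ) : Fin n → ℝ) - (0 : Fin (n + 1) → ℝ) 0 • k‖ < r / 4
      have : (Fin.tail (0 : Fin (n + 1) → ℝ) : Fin n → ℝ) = 0 := rfl
      rw [this]
      simp
      linarith

theorem EE_sbody {K : Set (Fin n → ℝ)} (hK : CB K) : H712MA.GB.SBody (EE K) :=
  ⟨EE_compact hK.comp, EE_convex hK.conv, EE_int hK.int, EE_symm⟩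

theorem EE_obody {K : Set (Fin n → ℝ)} (hK : CB K) : W679AM.OBody (EE K) :=
  ⟨EE_compact hK.comp, EE_convex hK.conv, H712MA.GB.zero_mem_interior (EE_sbody hK)⟩

theorem df_sbody {K : Set (Fin n → ℝ)} (hK : CB K) : H712MA.GB.SBody (df K) := by
  refine ⟨?_, ?_, ?_, ?_⟩
  · rw [← ms_one_ng]
    exact isCompact_ms hK.comp (CB_ng hK).comp 1
  · rintro _ ⟨y, hy, z, hz, rfl⟩ _ ⟨y', hy', z', hz', rfl⟩ a b ha hb hab
    exact ⟨a • y + b • y', hK.conv hy hy' ha hb hab, a • z + b • z', hK.conv hz hz' ha hb hab,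
      by module⟩
  · obtain ⟨k, hk⟩ := hK.int
    refine ⟨k - k, mem_interior.2 ⟨(fun x => x + k) ⁻¹' interior K, ?_, ?_, ?_⟩⟩
    · intro x hx
      exact ⟨x + k, interior_subset hx, k, interior_subset hk, by simp⟩
    · exact isOpen_interior.preimage (by fun_prop)
    · show k - k + k ∈ interior K
      simpa using hk
  · rintro _ ⟨y, hy, z, hz, rfl⟩
    exact ⟨z, hz, y, hy, by simp⟩

theorem po_df_fin {K : Set (Fin n → ℝ)} (hK : CB K) : volume (po (df K)) ≠ ⊤ :=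
  (H712MA.GB.plr_bdd (df_sbody hK)).measure_lt_top.ne

end Pool.Agent.Helper80.HT

end
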