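import Pool.Agent.Helper80.HT.Polar

/-!
# The Mahler inequality for `conv (K × {1} ∪ -K × {-1})`, `K` a convex body in `ℝ³`
-/

set_option autoImplicit false

noncomputable section

open MeasureTheory Set Matrix
open scoped ENNReal Pointwise

namespace Pool.Agent.Helper80.HT

open Pool.Agent.H629R2.HT

/-- the bound for the slices -/
def gg (v C h : ℝ) : ℝ := v / 4 * (1 + 3 * h ^ 2) + C / 4 * (1 - h ^ 2)

theorem slice_bound {K : Set (Fin 3 → ℝ)} (hK : CB K) {C : ℝ}
    (h : ∀ b : ℝ, 0 ≤ b → b ≤ 1 → V (ms K (ng K) b) ≤ V K * (1 + b ^ 3) + C * (b + b ^ 2))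
    {t c : ℝ} (h0 : 1 / 2 ≤ t) (h1 : t ≤ 1) (hc : |c| = t) {S : Set (Fin 3 → ℝ)}
    (hS : S ⊆ (fun x => c • x) '' ms K (ng K) ((1 - t) / t)) :
    0 ≤ gg (V K) C (2 * t - 1) ∧ volume S ≤ ENNReal.ofReal (gg (V K) C (2 * t - 1)) := by
  have ht : 0 < t := by linarith
  have hb0 : 0 ≤ (1 - t) / t := div_nonneg (by linarith) ht.le
  have hb1 : (1 - t) / t ≤ 1 := by rw [div_le_one ht]; linarith
  have h2 := h _ hb0 hb1
  have hcomp : IsCompact ((fun x : Fin 3 → ℝ => c • x) '' ms K (ng K) ((1 - t) / t)) :=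
    (isCompact_ms hK.comp (CB_ng hK).comp _).image (by fun_prop)
  have h3 : V ((fun x : Fin 3 → ℝ => c • x) '' ms K (ng K) ((1 - t) / t)) ≤
      gg (V K) C (2 * t - 1) := by
    rw [V_smul, hc]
    calc t ^ 3 * V (ms K (ng K) ((1 - t) / t)) ≤
        t ^ 3 * (V K * (1 + ((1 - t) / t) ^ 3) + C * ((1 - t) / t + ((1 - t) / t) ^ 2)) :=
          mul_le_mul_of_nonneg_left h2 (by positivity)
      _ = gg (V K) C (2 * t - 1) := by
          unfold gg
          field_simp
          ring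
  refine ⟨(V_nonneg _).trans h3, ?_⟩
  refine (measure_mono hS).trans ?_
  rw [← ENNReal.ofReal_toReal hcomp.measure_lt_top.ne]
  exact ENNReal.ofReal_le_ofReal h3

theorem slice_in {K : Set (Fin 3 → ℝ)} (hK : CB K) {C : ℝ}
    (h : ∀ b : ℝ, 0 ≤ b → b ≤ 1 → V (ms K (ng K) b) ≤ V K * (1 + b ^ 3) + C * (b + b ^ 2))
    {s : ℝ} (hs : s ∈ Icc (-1 : ℝ) 1) :
    0 ≤ gg (V K) C s ∧
      volume {y : Fin 3 → ℝ | (Fin.cons s y : Fin 4 → ℝ) ∈ EE K} ≤ ENNReal.ofReal (gg (V K) C s) := by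
  set t : ℝ := (1 + s) / 2 with ht
  have hst : s = 2 * t - 1 := by rw [ht]; ring
  have hmem : ∀ w : Fin 3 → ℝ, (Fin.cons s w : Fin 4 → ℝ) ∈ EE K →
      ∃ y ∈ K, ∃ z ∈ K, w = t • y - (1 - t) • z := by
    rintro w ⟨t', h0, h1, y, hy, z, hz, he⟩
    have e1 := congrFun he 0
    rw [Fin.cons_zero, Fin.cons_zero] at e1
    have e2 : t' = t := by rw [ht]; linarith
    subst e2
    refine ⟨y, hy, z, hz, ?_⟩
    have e3 := congrArg Fin.tail he
    rwa [Fin.tail_cons, Fin.tail_cons] at e3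
  rcases le_total (1 / 2) t with h2 | h2
  · have h1 : t ≤ 1 := by rw [ht]; linarith [hs.2]
    have ht0 : 0 < t := by linarith
    have := slice_bound hK h (t := t) (c := t) h2 h1 (abs_of_pos ht0)
      (S := {y : Fin 3 → ℝ | (Fin.cons s y : Fin 4 → ℝ) ∈ EE K}) (by
        intro w hw
        obtain ⟨y, hy, z, hz, rfl⟩ := hmem w hw
        refine ⟨y + ((1 - t) / t) • (-z), ⟨y, hy, -z, by show - -z ∈ K; rwa [neg_neg], rfl⟩, ?_⟩
        simp only [smul_add, smul_smul, smul_neg]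
        rw [mul_div_cancel₀ _ ht0.ne']
        module)
    rwa [← hst] at this
  · have h1 : t ≥ 0 := by rw [ht]; linarith [hs.1]
    have ht0 : 0 < 1 - t := by linarith
    have := slice_bound hK h (t := 1 - t) (c := -(1 - t)) (by linarith) (by linarith)
      (by rw [abs_neg, abs_of_pos ht0])
      (S := {y : Fin 3 → ℝ | (Fin.cons s y : Fin 4 → ℝ) ∈ EE K}) (by
        intro w hw
        obtain ⟨y, hy, z, hz, rfl⟩ := hmem w hw
        refine ⟨z + ((1 - (1 - t)) / (1 - t)) • (-y), ⟨z, hz, -y, by show - -y ∈ K; rwa [neg_neg], rfl⟩, ?_⟩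
        simp only [smul_add, smul_smul, smul_neg]
        have e : -(1 - t) * ((1 - (1 - t)) / (1 - t)) = -t := by field_simp; ring
        rw [e]
        module)
    have e : gg (V K) C (2 * (1 - t) - 1) = gg (V K) C s := by
      rw [hst]; unfold gg; ring
    rwa [e] at this

theorem slice_out {K : Set (Fin 3 → ℝ)} {s : ℝ} (hs : s ∉ Icc (-1 : ℝ) 1) :
    volume {y : Fin 3 → ℝ | (Fin.cons s y : Fin 4 → ℝ) ∈ EE K} = 0 := by
  have h1 : {y : Fin 3 → ℝ | (Fin.cons s y : Fin 4 → ℝ) ∈ EE K} = ∅ := by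
    ext w
    simp only [mem_ofPred_eq, mem_empty_iff_false, iff_false]
    rintro ⟨t, h0, h1, y, hy, z, hz, he⟩
    have e1 := congrFun he 0
    rw [Fin.cons_zero, Fin.cons_zero] at e1
    exact hs ⟨by linarith, by linarith⟩
  rw [h1, measure_empty]

theorem EE_vol {K : Set (Fin 3 → ℝ)} (hK : CB K) {C : ℝ}
    (h : ∀ b : ℝ, 0 ≤ b → b ≤ 1 → V (ms K (ng K) b) ≤ V K * (1 + b ^ 3) + C * (b + b ^ 2)) :
    0 ≤ V K + C / 3 ∧ volume (EE K) ≤ ENNReal.ofReal (V K + C / 3) := by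
  have hI : IntegrableOn (fun s : ℝ => gg (V K) C s) (Icc (-1) 1) := by
    apply Continuous.integrableOn_Icc
    unfold gg
    fun_prop
  have hval : ∫ s in Icc (-1 : ℝ) 1, gg (V K) C s = V K + C / 3 := by
    rw [integral_Icc_eq_integral_Ioc, ← intervalIntegral.integral_of_le (by norm_num)]
    have hd : ∀ x : ℝ, HasDerivAt (fun s : ℝ => V K / 4 * (s + s ^ 3) + C / 4 * (s - s ^ 3 / 3))
        (gg (V K) C x) x := by
      intro x
      have h1 : HasDerivAt (fun s : ℝ => s) 1 x := hasDerivAt_id x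
      have h3 : HasDerivAt (fun s : ℝ => s ^ 3) (3 * x ^ 2) x := by simpa using hasDerivAt_pow 3 x
      have h4 := ((h1.add h3).const_mul (V K / 4)).add ((h1.sub (h3.div_const 3)).const_mul (C / 4))
      refine h4.congr_deriv ?_
      unfold gg
      ring
    rw [intervalIntegral.integral_eq_sub_of_hasDerivAt (fun x _ => hd x)]
    · ring
    · apply Continuous.intervalIntegrable
      unfold gg
      fun_prop
  have hnn : 0 ≤ᵐ[volume.restrict (Icc (-1 : ℝ) 1)] fun s => gg (V K) C s := by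
    rw [Filter.EventuallyLE, ae_restrict_iff' measurableSet_Icc]
    exact Filter.Eventually.of_forall fun s hs => (slice_in hK h hs).1
  refine ⟨hval ▸ integral_nonneg_of_ae hnn, ?_⟩
  rw [vol_slice (EE_compact hK.comp).measurableSet]
  calc ∫⁻ s : ℝ, volume {y : Fin 3 → ℝ | (Fin.cons s y : Fin 4 → ℝ) ∈ EE K}
      ≤ ∫⁻ s : ℝ, (Icc (-1 : ℝ) 1).indicator (fun s => ENNReal.ofReal (gg (V K) C s)) s := by
        refine lintegral_mono fun s => ?_
        by_cases hs : s ∈ Icc (-1 : ℝ) 1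
        · rw [indicator_of_mem hs]
          exact (slice_in hK h hs).2
        · rw [indicator_of_notMem hs, slice_out hs]
    _ = ENNReal.ofReal (V K + C / 3) := by
        rw [lintegral_indicator measurableSet_Icc, ← ofReal_integral_eq_lintegral_ofReal hI hnn, hval]

/-- the missing statement of the library -/
theorem mah : S_mah := by
  intro K hK C h
  obtain ⟨hn, hv⟩ := EE_vol hK h
  have h1 := mahler_sym (EE_obody hK) EE_symm
  have h2 := polar_le hK
  have hfin := po_df_fin hK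
  have h3 : volume (po (df K)) = ENNReal.ofReal (V (po (df K))) := (ENNReal.ofReal_toReal hfin).symm
  rw [h3, ← ENNReal.ofReal_mul (by positivity)] at h2
  have h4 : ENNReal.ofReal ((2 : ℝ) ^ 4 / (4 : ℕ).factorial) ≤
      ENNReal.ofReal ((1 / 2 : ℝ) ^ 4) * ENNReal.ofReal (V K + C / 3) *
        ENNReal.ofReal ((2 : ℝ) ^ (3 + 1) / ((3 : ℕ) + 1) * V (po (df K))) :=
    h1.trans (mul_le_mul' (mul_le_mul' le_rfl hv) h2)
  rw [← ENNReal.ofReal_mul (by positivity), ← ENNReal.ofReal_mul (by positivity)] at h4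
  have hp : 0 ≤ V (po (df K)) := V_nonneg _
  rw [ENNReal.ofReal_le_ofReal_iff (by positivity)] at h4
  have h5 : ((4 : ℕ).factorial : ℝ) = 24 := by norm_num [Nat.factorial]
  rw [h5] at h4
  push_cast at h4
  nlinarith

end Pool.Agent.Helper80.HT

end
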