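import Pool.Agent.Helper80.HT.Body

/-!
# The volume of the polar body of `conv (K × {1} ∪ -K × {-1})`
-/

set_option autoImplicit false

noncomputable section

open MeasureTheory Set Matrix
open scoped ENNReal Pointwise

namespace Pool.Agent.Helper80.HT

open Pool.Agent.H629R2.HT

variable {n : ℕ}

theorem polar_closed {m : ℕ} (S : Set (Fin m → ℝ)) : IsClosed {y : Fin m → ℝ | ∀ x ∈ S, x ⬝ᵥ y ≤ 1} := by
  have : {y : Fin m → ℝ | ∀ x ∈ S, x ⬝ᵥ y ≤ 1} = ⋂ x ∈ S, {y | x ⬝ᵥ y ≤ 1} := by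
    ext y; simp
  rw [this]
  refine isClosed_biInter fun x _ => isClosed_le ?_ continuous_const
  unfold dotProduct
  fun_prop

/-- the comparison set -/
def PP (D : Set (Fin n → ℝ)) : Set (Fin (n + 1) → ℝ) :=
  {x | 0 < x 0 ∧ x 0 ≤ 2 ∧ (x 0)⁻¹ • Fin.tail x ∈ D}

theorem PP_meas {D : Set (Fin n → ℝ)} (hD : MeasurableSet D) : MeasurableSet (PP D) := by
  have h0 : Measurable fun x : Fin (n + 1) → ℝ => x 0 := measurable_pi_apply 0
  have ht : Measurable fun x : Fin (n + 1) → ℝ => (Fin.tail x : Fin n → ℝ) :=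
    measurable_pi_lambda _ fun j => measurable_pi_apply _
  have h1 : MeasurableSet {x : Fin (n + 1) → ℝ | 0 < x 0} := measurableSet_lt measurable_const h0
  have h2 : MeasurableSet {x : Fin (n + 1) → ℝ | x 0 ≤ 2} := measurableSet_le h0 measurable_const
  have h3 : MeasurableSet {x : Fin (n + 1) → ℝ | (x 0)⁻¹ • Fin.tail x ∈ D} :=
    (h0.inv.smul ht) hD
  exact h1.inter (h2.inter h3)

theorem slice_pos {D : Set (Fin n → ℝ)} {s : ℝ} (h0 : 0 < s) (h2 : s ≤ 2) :
    volume {y : Fin n → ℝ | (Fin.cons s y : Fin (n + 1) → ℝ) ∈ PP D} =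
      ENNReal.ofReal (s ^ n) * volume D := by
  have h1 : {y : Fin n → ℝ | (Fin.cons s y : Fin (n + 1) → ℝ) ∈ PP D} =
      (fun y => s⁻¹ • y) ⁻¹' D := by
    ext y
    constructor
    · intro h
      have h3 := h.2.2
      rw [Fin.cons_zero, Fin.tail_cons] at h3
      exact h3
    · intro h
      refine ⟨by rw [Fin.cons_zero]; exact h0, by rw [Fin.cons_zero]; exact h2, ?_⟩
      rw [Fin.cons_zero, Fin.tail_cons]
      exact h
  rw [h1, Measure.addHaar_preimage_smul volume (inv_ne_zero h0.ne'), Module.finrank_fin_fun]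
  congr 2
  rw [inv_pow, inv_inv, abs_of_nonneg (by positivity)]

theorem slice_neg {D : Set (Fin n → ℝ)} {s : ℝ} (h : s ∉ Ioc (0 : ℝ) 2) :
    volume {y : Fin n → ℝ | (Fin.cons s y : Fin (n + 1) → ℝ) ∈ PP D} = 0 := by
  have h1 : {y : Fin n → ℝ | (Fin.cons s y : Fin (n + 1) → ℝ) ∈ PP D} = ∅ := by
    ext y
    simp only [mem_empty_iff_false, iff_false]
    intro h2
    have h3 := h2.1
    have h4 := h2.2.1
    rw [Fin.cons_zero] at h3 h4
    exact h ⟨h3, h4⟩
  rw [h1, measure_empty]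

theorem PP_vol {D : Set (Fin n → ℝ)} (hD : MeasurableSet D) :
    volume (PP D) = ENNReal.ofReal ((2 : ℝ) ^ (n + 1) / (n + 1)) * volume D := by
  rw [vol_slice (PP_meas hD)]
  have h1 : ∀ s : ℝ, volume {y : Fin n → ℝ | (Fin.cons s y : Fin (n + 1) → ℝ) ∈ PP D} =
      (Ioc (0 : ℝ) 2).indicator (fun s => ENNReal.ofReal (s ^ n) * volume D) s := by
    intro s
    by_cases hs : s ∈ Ioc (0 : ℝ) 2
    · rw [indicator_of_mem hs, slice_pos hs.1 hs.2]
    · rw [indicator_of_notMem hs, slice_neg hs]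
  simp_rw [h1]
  rw [lintegral_indicator measurableSet_Ioc, lintegral_mul_const _ (by fun_prop)]
  congr 1
  have h3 : IntegrableOn (fun s : ℝ => s ^ n) (Ioc 0 2) :=
    (continuous_pow n).integrableOn_Icc.mono_set Ioc_subset_Icc_self
  rw [← ofReal_integral_eq_lintegral_ofReal h3 ?_]
  · congr 1
    rw [← intervalIntegral.integral_of_le (by norm_num), integral_pow]
    simp
  · rw [Filter.EventuallyLE, ae_restrict_iff' measurableSet_Ioc]
    exact Filter.Eventually.of_forall fun s hs => pow_nonneg hs.1.le n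

theorem polar_le {K : Set (Fin n → ℝ)} (hK : CB K) :
    volume {y : Fin (n + 1) → ℝ | ∀ x ∈ EE K, x ⬝ᵥ y ≤ 1} ≤
      ENNReal.ofReal ((2 : ℝ) ^ (n + 1) / (n + 1)) * volume (po (df K)) := by
  have hD : MeasurableSet (po (df K)) := (polar_closed (df K)).measurableSet
  rw [← PP_vol hD, vol_fib (PP_meas hD), vol_fib (polar_closed (EE K)).measurableSet]
  refine lintegral_mono fun w => ?_
  have hcont : ContinuousOn (fun z : Fin n → ℝ => z ⬝ᵥ w) K := by
    apply Continuous.continuousOn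
    unfold dotProduct
    fun_prop
  obtain ⟨a, ha, hmax⟩ := hK.comp.exists_isMaxOn (CB_ne hK) hcont
  obtain ⟨b, hb, hmin⟩ := hK.comp.exists_isMinOn (CB_ne hK) hcont
  have hmax' : ∀ z ∈ K, z ⬝ᵥ w ≤ a ⬝ᵥ w := fun z hz => hmax hz
  have hmin' : ∀ z ∈ K, b ⬝ᵥ w ≤ z ⬝ᵥ w := fun z hz => hmin hz
  have hba := hmin' a ha
  have h1 : {t : ℝ | (Fin.cons t w : Fin (n + 1) → ℝ) ∈ {y | ∀ x ∈ EE K, x ⬝ᵥ y ≤ 1}} ⊆
      Icc (-1 - b ⬝ᵥ w) (1 - a ⬝ᵥ w) := by
    intro t ht
    have h2 := ht (Fin.cons 1 a) ⟨1, zero_le_one, le_refl _, a, ha, a, ha, by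
      congr 1
      · norm_num
      · simp⟩
    have h3 := ht (Fin.cons (-1) (-b)) ⟨0, le_refl _, zero_le_one, b, hb, b, hb, by
      congr 1
      · norm_num
      · simp⟩
    rw [cons_dot] at h2 h3
    rw [neg_dotProduct] at h3
    constructor <;> linarith
  have h2 : Ioc (a ⬝ᵥ w - b ⬝ᵥ w) 2 ⊆
      {t : ℝ | (Fin.cons t w : Fin (n + 1) → ℝ) ∈ PP (po (df K))} := by
    intro s hs
    have hs0 : 0 < s := by linarith [hs.1]
    refine ⟨by rw [Fin.cons_zero]; exact hs0, by rw [Fin.cons_zero]; exact hs.2, ?_⟩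
    rw [Fin.cons_zero, Fin.tail_cons]
    rintro _ ⟨y, hy, z, hz, rfl⟩
    rw [dotProduct_smul, smul_eq_mul, inv_mul_le_iff₀ hs0, sub_dotProduct]
    have h3 := hmax' y hy
    have h4 := hmin' z hz
    linarith [hs.1]
  refine (measure_mono h1).trans (le_trans (le_of_eq ?_) (measure_mono h2))
  rw [Real.volume_Icc, Real.volume_Ioc]
  congr 1
  ring

end Pool.Agent.Helper80.HT

end
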