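import Pool.Graph.R_seed8.W679.AM.Main

/-!
# Mahler's inequality for centrally symmetric convex bodies, in coordinates

From the asymmetric inequality of the library: the body `K'` of a symmetric body `K` lies in `K/2`.
-/

set_option autoImplicit false

noncomputable section

open MeasureTheory Set Matrix
open scoped ENNReal Pointwise

namespace Pool.Agent.Helper80.HT

open W679AM H712MA

variable {n : ℕ}

theorem prm_half {K : Set (Fin n → ℝ)} (h : OBody K) (hs' : ∀ x ∈ K, -x ∈ K) :
    prm K ⊆ (1 / 2 : ℝ) • K := by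
  intro x hx
  rw [mem_smul_set_iff_inv_smul_mem₀ (by norm_num)]
  by_contra hcon
  obtain ⟨f, s, hf1, hf2⟩ := geometric_hahn_banach_closed_point h.conv h.comp.isClosed hcon
  set u : Fin n → ℝ := fun i => f (fun j => if i = j then 1 else 0) with hu
  have hfu : ∀ y : Fin n → ℝ, y ⬝ᵥ u = f y := by
    intro y
    have h1 := LinearMap.pi_apply_eq_sum_univ (f : (Fin n → ℝ) →ₗ[ℝ] ℝ) y
    simp only [ContinuousLinearMap.coe_coe] at h1
    rw [h1]
    rfl
  have h1 : hs K u ≤ s := GAaux.hs_le h u s fun y hy => by rw [hfu]; exact (hf1 y hy).le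
  have h2 : hs K (-u) ≤ hs K u := GAaux.hs_le h (-u) _ fun y hy => by
    have := GAaux.le_hs h (hs' y hy) u
    rwa [neg_dotProduct, ← dotProduct_neg] at this
  have h3 : hs K u ≤ hs K (-u) := GAaux.hs_le h u _ fun y hy => by
    have := GAaux.le_hs h (hs' y hy) (-u)
    rwa [neg_dotProduct, dotProduct_neg, neg_neg] at this
  have h4 : hs K (-u) = hs K u := le_antisymm h2 h3
  have h5 : |x ⬝ᵥ u| * (hs K u + hs K (-u)) ≤ hs K u * hs K (-u) := hx u
  rw [h4] at h5
  rw [← hfu, smul_dotProduct, smul_eq_mul] at hf2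
  have h6 : (1 / 2 : ℝ)⁻¹ = 2 := by norm_num
  rw [h6] at hf2
  have h7 := le_abs_self (x ⬝ᵥ u)
  have h8 := GAaux.hs_nonneg h u
  rcases h8.eq_or_lt with h9 | h9
  · have hu0 : u = 0 := by
      by_contra hne
      exact (GAaux.hs_pos h hne).ne h9
    rw [hu0, dotProduct_zero] at hf2
    rw [← h9] at h1
    linarith
  · have h10 : |x ⬝ᵥ u| * 2 ≤ hs K u := by
      by_contra hc
      push Not at hc
      have := mul_lt_mul_of_pos_right hc h9
      nlinarith
    linarith

/-- Mahler's inequality for symmetric convex bodies, in coordinates -/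
theorem mahler_sym {K : Set (Fin n → ℝ)} (h : OBody K) (hs' : ∀ x ∈ K, -x ∈ K) :
    ENNReal.ofReal ((2 : ℝ) ^ n / n.factorial) ≤
      ENNReal.ofReal ((1 / 2 : ℝ) ^ n) * volume K * volume {y : Fin n → ℝ | ∀ x ∈ K, x ⬝ᵥ y ≤ 1} := by
  have h1 := GAaux.coord za h
  have h2 : volume (prm K) ≤ ENNReal.ofReal ((1 / 2 : ℝ) ^ n) * volume K := by
    refine (measure_mono (prm_half h hs')).trans (le_of_eq ?_)
    rw [Measure.addHaar_smul, Module.finrank_fin_fun, abs_of_nonneg (by positivity)]
  exact h1.trans (mul_le_mul_left h2 _)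

end Pool.Agent.Helper80.HT

end
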